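import Pool.Agent.H95.MM2

set_option autoImplicit false

open Pool.Agent.H95.Mms

theorem Pool.Agent.Results.MP_3b4475_gt.NotHaus.result :
    ¬ @T2Space (TopologicalSpace.Closeds Cl) (tauK Cl) :=
  cl_not_t2
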